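import Pool.Agent.N661.FCX.Ineq

set_option autoImplicit false

/-!
# Estimates near the turning point
-/

namespace Pool.Agent.N661.FCX

/-- The turning point. -/
structure TP (T r : ℝ) : Prop where
  sq : 2 * r ^ 2 = T ^ 2
  pos : 0 < r
  T0 : 1000000 ≤ T

theorem TP.lo {T r : ℝ} (h : TP T r) : 7071 / 10000 * T ≤ r := by
  obtain ⟨h1, h2, h3⟩ := h
  nlinarith

theorem TP.hi {T r : ℝ} (h : TP T r) : r ≤ 7072 / 10000 * T := by
  obtain ⟨h1, h2, h3⟩ := h
  nlinarith

structure Near (T r x : ℝ) : Prop extends TP T r where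
  l : r - T / 1000 ≤ x
  u : x ≤ r + T / 1000

variable {T r x : ℝ}

theorem Near.xl (h : Near T r x) : 7061 / 10000 * T ≤ x := by
  have := h.toTP.lo
  have := h.l
  linarith

theorem Near.xu (h : Near T r x) : x ≤ 7082 / 10000 * T := by
  have := h.toTP.hi
  have := h.u
  linarith

theorem Near.A_bd (h : Near T r x) : 41 / 100 ≤ hA T (x - 2) ∧ hA T (x - 2) ≤ hA T x ∧
    hA T x ≤ 42 / 100 ∧ hA T x - hA T (x - 2) ≤ 7 / 10 / T := by
  have h1 := h.xl
  have h2 := h.xu
  have h3 := h.T0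
  have hD1 : 0 < T + x - 2 := by linarith
  have hD3 : 0 < T + x - 4 := by linarith
  have hT : 0 < T := by linarith
  have e : T + (x - 2) - 2 = T + x - 4 := by ring
  have hs := hA_sub hD1 hD3
  refine ⟨?_, ?_, ?_, ?_⟩
  · unfold hA
    rw [e, le_div_iff₀ hD3]
    linarith
  · have : 0 ≤ 2 * (T - 1) / ((T + x - 2) * (T + x - 4)) := by
      apply div_nonneg <;> nlinarith
    linarith
  · unfold hA
    rw [div_le_iff₀ hD1]
    linarith
  · rw [hs, div_div, div_le_div_iff₀ (by positivity) (by positivity)]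
    have e1 : 17 / 10 * T ≤ T + x - 2 := by linarith
    have e2 : 17 / 10 * T ≤ T + x - 4 := by linarith
    have e3 : (17 / 10 * T) * (17 / 10 * T) ≤ (T + x - 2) * (T + x - 4) :=
      mul_le_mul e1 e2 (by positivity) hD1.le
    nlinarith

theorem Near.B_bd (h : Near T r x) : 4 ≤ hB T x ∧ hB T x ≤ 49 / 10 ∧
    1 - hC T x ≤ 7 / T := by
  have h1 := h.xl
  have h2 := h.xu
  have h3 := h.T0
  have hD2 : 0 < T - x + 2 := by linarith
  have hT : 0 < T := by linarith
  refine ⟨?_, ?_, ?_⟩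
  · unfold hB
    rw [le_div_iff₀ hD2]
    linarith
  · unfold hB
    rw [div_le_iff₀ hD2]
    linarith
  · have : 1 - hC T x = 2 / (T - x + 2) := by
      unfold hC
      field_simp
      ring
    rw [this, div_le_div_iff₀ hD2 hT]
    linarith

theorem Near.N_eq (h : Near T r x) : hN T x = 4 * (x - r) * (x + r) - 12 * x + 8 + 2 * T := by
  unfold hN
  have := h.sq
  linear_combination 2 * this

theorem Near.D_bd (h : Near T r x) : 0 < T + x - 2 ∧ 0 < T - x + 2 ∧
    497 / 1000 * T ^ 2 ≤ (T + x - 2) * (T - x + 2) ∧ (T + x - 2) * (T - x + 2) ≤ T ^ 2 := by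
  have h1 := h.xl
  have h2 := h.xu
  have h3 := h.T0
  have hD1 : 0 < T + x - 2 := by linarith
  have hD2 : 0 < T - x + 2 := by linarith
  have hT : 0 < T := by linarith
  refine ⟨hD1, hD2, ?_, ?_⟩
  · have e1 : 1706 / 1000 * T ≤ T + x - 2 := by linarith
    have e2 : 2918 / 10000 * T ≤ T - x + 2 := by linarith
    have e3 : (1706 / 1000 * T) * (2918 / 10000 * T) ≤ (T + x - 2) * (T - x + 2) :=
      mul_le_mul e1 e2 (by positivity) hD1.le
    nlinarith
  · have : (T + x - 2) * (T - x + 2) = T ^ 2 - (x - 2) ^ 2 := by ring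
    rw [this]
    nlinarith [sq_nonneg (x - 2)]

theorem Near.M_bd (h : Near T r x) : |hM T x - 1| ≤ 3 / 100 := by
  obtain ⟨hD1, hD2, hl, hu⟩ := h.D_bd
  have h1 := h.xl
  have h2 := h.xu
  have h3 := h.T0
  have h4 := h.toTP.lo
  have h5 := h.toTP.hi
  have h6 := h.l
  have h7 := h.u
  have hT : 0 < T := by linarith
  have hP : 0 < (T + x - 2) * (T - x + 2) := by positivity
  rw [hM_eq hD1 hD2, abs_div, abs_of_pos hP, div_le_iff₀ hP, h.N_eq]
  have h8 : |(x - r) * (x + r)| ≤ T / 1000 * (1416 / 1000 * T) := by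
    rw [abs_mul]
    apply mul_le_mul
    · rw [abs_le]; constructor <;> linarith
    · rw [abs_le]; constructor <;> linarith
    · positivity
    · positivity
  obtain ⟨h9, h10⟩ := abs_le.1 h8
  have hTT : 1000000 * T ≤ T ^ 2 := by nlinarith
  rw [abs_le]
  constructor
  · nlinarith
  · nlinarith

/-- lower bound on the source, to the right of the turning point -/
theorem Near.S_pos (h : Near T r x) {y : ℝ} (hy : 2 ≤ y) (hxy : r + y ≤ x) :
    (2 * y - 4) / T ≤ hA T (x - 2) * hM T x - hA T x := by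
  obtain ⟨hD1, hD2, hl, hu⟩ := h.D_bd
  obtain ⟨a1, a2, a3, a4⟩ := h.A_bd
  have h1 := h.xl
  have h2 := h.xu
  have h3 := h.T0
  have h4 := h.toTP.lo
  have h5 := h.toTP.hi
  have hT : 0 < T := by linarith
  have hP : 0 < (T + x - 2) * (T - x + 2) := by positivity
  have kN : (56 / 10 * y - 65 / 10) * T ≤ hN T x := by
    rw [h.N_eq]
    have e1 : y * (1414 / 1000 * T) ≤ (x - r) * (x + r) := by
      apply mul_le_mul
      · linarith
      · linarith
      · positivity
      · linarith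
    nlinarith
  have kN0 : 0 ≤ (56 / 10 * y - 65 / 10) * T := mul_nonneg (by linarith) hT.le
  have kM : (56 / 10 * y - 65 / 10) / T ≤ hM T x - 1 := by
    rw [hM_eq hD1 hD2, div_le_div_iff₀ hT hP]
    calc (56 / 10 * y - 65 / 10) * ((T + x - 2) * (T - x + 2)) ≤
        (56 / 10 * y - 65 / 10) * T ^ 2 := mul_le_mul_of_nonneg_left hu (by linarith)
      _ = ((56 / 10 * y - 65 / 10) * T) * T := by ring
      _ ≤ hN T x * T := mul_le_mul_of_nonneg_right kN hT.le
  have e : hA T (x - 2) * hM T x - hA T x =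
      hA T (x - 2) * (hM T x - 1) - (hA T x - hA T (x - 2)) := by ring
  rw [e]
  have kM0 : 0 ≤ (56 / 10 * y - 65 / 10) / T := div_nonneg (by linarith) hT.le
  have h8 : 41 / 100 * ((56 / 10 * y - 65 / 10) / T) ≤ hA T (x - 2) * (hM T x - 1) :=
    mul_le_mul a1 kM kM0 (by linarith)
  have h9 : (2 * y - 4) / T ≤ 41 / 100 * ((56 / 10 * y - 65 / 10) / T) - 7 / 10 / T := by
    rw [← sub_nonneg]
    have : 41 / 100 * ((56 / 10 * y - 65 / 10) / T) - 7 / 10 / T - (2 * y - 4) / T =
        (41 / 100 * (56 / 10 * y - 65 / 10) - 7 / 10 - (2 * y - 4)) / T := by ring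
    rw [this]
    exact div_nonneg (by linarith) hT.le
  linarith

/-- lower bound on the source, to the left of the turning point -/
theorem Near.M_neg (h : Near T r x) {y : ℝ} (hy : 0 ≤ y) (hxy : r - y ≤ x) :
    -((115 / 10 * y + 14) / T) ≤ hM T x - 1 := by
  obtain ⟨hD1, hD2, hl, hu⟩ := h.D_bd
  have h1 := h.xl
  have h2 := h.xu
  have h3 := h.T0
  have h4 := h.toTP.lo
  have h5 := h.toTP.hi
  have hT : 0 < T := by linarith
  have hP : 0 < (T + x - 2) * (T - x + 2) := by positivity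
  have kN : -((5665 / 1000 * y + 65 / 10) * T) ≤ hN T x := by
    rw [h.N_eq]
    have e1 : -(y * (1416 / 1000 * T)) ≤ (x - r) * (x + r) := by
      have e2 : (-y) * (x + r) ≤ (x - r) * (x + r) :=
        mul_le_mul_of_nonneg_right (by linarith) (by linarith)
      have e3 : y * (x + r) ≤ y * (1416 / 1000 * T) :=
        mul_le_mul_of_nonneg_left (by linarith) hy
      linarith
    nlinarith [mul_nonneg hy hT.le]
  rw [hM_eq hD1 hD2, ← neg_div, div_le_div_iff₀ hT hP]
  have e5 : (115 / 10 * y + 14) * (497 / 1000 * T ^ 2) ≤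
      (115 / 10 * y + 14) * ((T + x - 2) * (T - x + 2)) :=
    mul_le_mul_of_nonneg_left hl (by linarith)
  have e6 : -((5665 / 1000 * y + 65 / 10) * T) * T ≤ hN T x * T :=
    mul_le_mul_of_nonneg_right kN hT.le
  have e7 : (5665 / 1000 * y + 65 / 10) * T ^ 2 ≤ (115 / 10 * y + 14) * (497 / 1000 * T ^ 2) := by
    nlinarith [mul_nonneg hy (sq_nonneg T), sq_nonneg T]
  nlinarith

theorem Near.S_neg (h : Near T r x) {y : ℝ} (hy : 0 ≤ y) (hxy : r - y ≤ x) :
    -(5 * y + 7) / T ≤ hA T (x - 2) * hM T x - hA T x := by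
  obtain ⟨a1, a2, a3, a4⟩ := h.A_bd
  have h3 := h.T0
  have hT : 0 < T := by linarith
  have kM := h.M_neg hy hxy
  have hK : 0 ≤ (115 / 10 * y + 14) / T := div_nonneg (by linarith) hT.le
  have e : hA T (x - 2) * hM T x - hA T x =
      hA T (x - 2) * (hM T x - 1) - (hA T x - hA T (x - 2)) := by ring
  rw [e]
  have h8 : -(42 / 100 * ((115 / 10 * y + 14) / T)) ≤ hA T (x - 2) * (hM T x - 1) := by
    have e1 : hA T (x - 2) * (-((115 / 10 * y + 14) / T)) ≤ hA T (x - 2) * (hM T x - 1) :=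
      mul_le_mul_of_nonneg_left kM (by linarith)
    have e2 : hA T (x - 2) * ((115 / 10 * y + 14) / T) ≤ 42 / 100 * ((115 / 10 * y + 14) / T) :=
      mul_le_mul_of_nonneg_right (by linarith) hK
    linarith
  have h9 : -(5 * y + 7) / T ≤ -(42 / 100 * ((115 / 10 * y + 14) / T)) - 7 / 10 / T := by
    rw [← sub_nonneg]
    have : -(42 / 100 * ((115 / 10 * y + 14) / T)) - 7 / 10 / T - -(5 * y + 7) / T =
        (-(42 / 100 * (115 / 10 * y + 14)) - 7 / 10 + (5 * y + 7)) / T := by ring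
    rw [this]
    exact div_nonneg (by linarith) hT.le
  linarith

/-- One step of the lower bound. -/
theorem Near.inc (h : Near T r x) {F B σ i : ℝ} (hF0 : 0 ≤ F) (hFB : F ≤ B)
    (hTB : 100 * B ≤ T) (hTB2 : 11 * B + 5 * B ^ 2 ≤ T)
    (hS : σ / T ≤ hA T (x - 2) * hM T x - hA T x)
    (hi1 : i * (9 / 10) ≤ σ - 1) (hi2 : i * (11 / 10) ≤ σ - 1) :
    0 < hM T x + hB T x * (F / T) ∧
    (F + i) / T ≤ hA T (x - 2) - (hA T x + F / T) / (hM T x + hB T x * (F / T)) := by
  obtain ⟨a1, a2, a3, a4⟩ := h.A_bd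
  obtain ⟨b1, b2, b3⟩ := h.B_bd
  have h3 := h.T0
  have hT : 0 < T := by linarith
  obtain ⟨m1, m2⟩ := abs_le.1 h.M_bd
  set ε := F / T with hε
  have hε0 : 0 ≤ ε := div_nonneg hF0 hT.le
  have hε1 : ε ≤ 1 / 100 := by
    rw [hε, div_le_iff₀ hT]
    linarith
  set A' := hA T (x - 2)
  set A := hA T x
  set m := hM T x with hm
  set b := hB T x
  set c := hC T x
  have hmdef : m = A * b - c := rfl
  have hbε : b * ε ≤ 49 / 1000 := by nlinarith
  have hbε0 : 0 ≤ b * ε := mul_nonneg (by linarith) hε0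
  have hG1 : 9 / 10 ≤ m + b * ε := by linarith
  have hG2 : m + b * ε ≤ 11 / 10 := by linarith
  have hG : 0 < m + b * ε := by linarith
  refine ⟨hG, ?_⟩
  have hiG : i * (m + b * ε) ≤ σ - 1 := by
    rcases le_total 0 i with h0 | h0
    · nlinarith
    · nlinarith
  have e1 : A' - (A + ε) / (m + b * ε) = (A' * (m + b * ε) - (A + ε)) / (m + b * ε) := by
    rw [sub_div, mul_div_assoc, div_self hG.ne', mul_one]
  rw [e1, le_div_iff₀ hG]
  have e2 : (F + i) / T = ε + i / T := by rw [hε]; ring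
  rw [e2]
  have e3 : A' * (m + b * ε) - (A + ε) - (ε + i / T) * (m + b * ε) =
      (A' * m - A) - (i * (m + b * ε)) / T -
        ε * ((A - A') * b + (1 - c)) - b * ε ^ 2 := by
    rw [hmdef]
    ring
  have h5 : (i * (m + b * ε)) / T ≤ (σ - 1) / T := div_le_div_of_nonneg_right hiG hT.le
  have h6 : (A - A') * b + (1 - c) ≤ 11 / T := by
    have : (A - A') * b ≤ 7 / 10 / T * (49 / 10) :=
      mul_le_mul a4 b2 (by linarith) (by positivity)
    have e4 : 7 / 10 / T * (49 / 10) + 7 / T ≤ 11 / T := by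
      rw [← sub_nonneg]
      have : 11 / T - (7 / 10 / T * (49 / 10) + 7 / T) = (11 - 7 / 10 * (49 / 10) - 7) / T := by
        ring
      rw [this]
      positivity
    linarith
  have h7 : ε * ((A - A') * b + (1 - c)) ≤ ε * (11 / T) := mul_le_mul_of_nonneg_left h6 hε0
  have h8 : b * ε ^ 2 ≤ 5 * ε ^ 2 := by nlinarith [sq_nonneg ε]
  have h9 : ε * (11 / T) + 5 * ε ^ 2 ≤ 1 / T := by
    have e5 : ε * (11 / T) + 5 * ε ^ 2 = (11 * F + 5 * F ^ 2) / T ^ 2 := by
      rw [hε]; field_simp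
    rw [e5, div_le_div_iff₀ (by positivity) hT]
    have e6 : F ^ 2 ≤ B ^ 2 := pow_le_pow_left₀ hF0 hFB 2
    have e7 : 11 * F + 5 * F ^ 2 ≤ T := by linarith
    calc (11 * F + 5 * F ^ 2) * T ≤ T * T := mul_le_mul_of_nonneg_right e7 hT.le
      _ = 1 * T ^ 2 := by ring
  have h10 : (σ - 1) / T = σ / T - 1 / T := by ring
  rw [← sub_nonneg, e3]
  linarith

/-- the source is nonnegative to the right of the turning point -/
theorem S_far (h : TP T r) (hx : r + 10 ≤ x) (hxT : x ≤ T) :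
    1 ≤ hM T x ∧ 0 ≤ hA T (x - 2) * hM T x - hA T x := by
  have h4 := h.lo
  have h5 := h.hi
  have h3 := h.T0
  have hT : 0 < T := by linarith
  have hD1 : 0 < T + x - 2 := by linarith
  have hD2 : 0 < T - x + 2 := by linarith
  have hD3 : 0 < T + x - 4 := by linarith
  have hP : 0 < (T + x - 2) * (T - x + 2) := by positivity
  have kN : 30 * T ≤ hN T x := by
    have e0 : hN T x = 4 * (x - r) * (x + r) - 12 * x + 8 + 2 * T := by
      unfold hN
      have := h.sq
      linear_combination 2 * this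
    rw [e0]
    nlinarith
  have kM1 : hM T x - 1 = hN T x / ((T + x - 2) * (T - x + 2)) := hM_eq hD1 hD2
  have kM0 : 0 ≤ hM T x - 1 := by
    rw [kM1]
    exact div_nonneg (by linarith) hP.le
  refine ⟨by linarith, ?_⟩
  have e : hA T (x - 2) * hM T x - hA T x =
      hA T (x - 2) * (hM T x - 1) - (hA T x - hA T (x - 2)) := by ring
  rw [e, hA_sub hD1 hD3, kM1]
  have e2 : T + (x - 2) - 2 = T + x - 4 := by ring
  have e3 : hA T (x - 2) = (x - 3) / (T + x - 4) := by
    unfold hA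
    rw [e2]
    congr 1
    ring
  rw [e3]
  have e4 : (x - 3) / (T + x - 4) * (hN T x / ((T + x - 2) * (T - x + 2))) -
      2 * (T - 1) / ((T + x - 2) * (T + x - 4)) =
      ((x - 3) * hN T x - 2 * (T - 1) * (T - x + 2)) /
        ((T + x - 4) * ((T + x - 2) * (T - x + 2))) := by
    field_simp
  rw [e4]
  apply div_nonneg _ (by positivity)
  have h6 : (T / 2) * (30 * T) ≤ (x - 3) * hN T x := by
    apply mul_le_mul
    · linarith
    · exact kN
    · positivity
    · linarith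
  have h7 : 2 * (T - 1) * (T - x + 2) ≤ 2 * T * T := by
    apply mul_le_mul
    · linarith
    · linarith
    · linarith
    · linarith
  nlinarith

end Pool.Agent.N661.FCX
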