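import Mathlib

set_option autoImplicit false

/-!
# Inequalities for the Riccati recursion of the Feynman checkers
-/

namespace Pool.Agent.N661.FCX

/-- half the coefficient `a` -/
noncomputable def hA (T x : ℝ) : ℝ := (x - 1) / (T + x - 2)
noncomputable def hB (T x : ℝ) : ℝ := 2 * (x - 2) / (T - x + 2)
noncomputable def hC (T x : ℝ) : ℝ := (T - x) / (T - x + 2)
noncomputable def hM (T x : ℝ) : ℝ := hA T x * hB T x - hC T x

/-- One step to the left. -/
theorem step {T x p q p' q' e : ℝ}
    (h1 : (T + x - 2) * (p' - p) = (2 * x - 2) * q)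
    (h2 : (T - x + 2) * q' = (T - x) * q - 2 * (x - 2) * p')
    (hx : 3 < x) (hxT : x ≤ T) (hq : q ≠ 0) (he : e ≤ hA T x + p / q)
    (hG : 0 < hM T x + hB T x * e) :
    q' ≠ 0 ∧ hA T (x - 2) - (hA T x + e) / (hM T x + hB T x * e) ≤ hA T (x - 2) + p' / q' := by
  have hD1 : 0 < T + x - 2 := by linarith
  have hD2 : 0 < T - x + 2 := by linarith
  have hc : 0 ≤ hC T x := by unfold hC; exact div_nonneg (by linarith) hD2.le
  have hb : 0 ≤ hB T x := by unfold hB; exact div_nonneg (by linarith) hD2.le
  set r := p / q with hr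
  set ε := hA T x + r with hε
  have hp : p = r * q := by rw [hr]; field_simp
  have hp' : p' = (hA T x + ε) * q := by
    have h3 : (T + x - 2) * p' = (T + x - 2) * ((hA T x + ε) * q) := by
      have : (T + x - 2) * hA T x = x - 1 := by unfold hA; field_simp
      rw [hε]
      have e1 : (T + x - 2) * ((hA T x + (hA T x + r)) * q) =
          2 * ((T + x - 2) * hA T x) * q + (T + x - 2) * (r * q) := by ring
      rw [e1, this, ← hp]
      linear_combination h1
    exact mul_left_cancel₀ hD1.ne' h3
  have hG' : 0 < hM T x + hB T x * ε := by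
    have := mul_le_mul_of_nonneg_left he hb
    linarith
  have hq' : q' = -((hM T x + hB T x * ε) * q) := by
    have h3 : (T - x + 2) * q' = (T - x + 2) * (-((hM T x + hB T x * ε) * q)) := by
      have e1 : (T - x + 2) * hB T x = 2 * (x - 2) := by unfold hB; field_simp
      have e2 : (T - x + 2) * hC T x = T - x := by unfold hC; field_simp
      have e3 : (T - x + 2) * (-((hM T x + hB T x * ε) * q)) =
          -(((T - x + 2) * hB T x) * (hA T x + ε) * q) + ((T - x + 2) * hC T x) * q := by
        unfold hM; ring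
      rw [e3, e1, e2, h2, hp']
      ring
    exact mul_left_cancel₀ hD2.ne' h3
  refine ⟨?_, ?_⟩
  · rw [hq']
    exact neg_ne_zero.2 (mul_ne_zero hG'.ne' hq)
  · rw [hp', hq']
    have e1 : (hA T x + ε) * q / -((hM T x + hB T x * ε) * q) =
        -((hA T x + ε) / (hM T x + hB T x * ε)) := by
      field_simp
    rw [e1]
    have h4 : (hA T x + ε) / (hM T x + hB T x * ε) ≤ (hA T x + e) / (hM T x + hB T x * e) := by
      rw [div_le_div_iff₀ hG' hG]
      have h5 : (hA T x + e) * (hM T x + hB T x * ε) - (hA T x + ε) * (hM T x + hB T x * e) =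
          (ε - e) * hC T x := by
        unfold hM; ring
      have h6 : 0 ≤ (ε - e) * hC T x := mul_nonneg (by linarith) hc
      linarith
    linarith

/-- The amplitude grows if `ε` is not too small. -/
theorem grow {T x p q p' q' : ℝ}
    (h1 : (T + x - 2) * (p' - p) = (2 * x - 2) * q)
    (h2 : (T - x + 2) * q' = (T - x) * q - 2 * (x - 2) * p')
    (hx : 3 < x) (hxT : x ≤ T) (hq : q ≠ 0)
    (he : 0 < hM T x - 1 + (hB T x + 2 * hA T x) * (hA T x + p / q)) :
    p ^ 2 + q ^ 2 < p' ^ 2 + q' ^ 2 := by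
  have hD1 : 0 < T + x - 2 := by linarith
  have hD2 : 0 < T - x + 2 := by linarith
  set r := p / q with hr
  set ε := hA T x + r with hε
  have hp : p = (ε - hA T x) * q := by rw [hε, hr]; field_simp; ring
  have hp' : p' = (hA T x + ε) * q := by
    have h3 : (T + x - 2) * p' = (T + x - 2) * ((hA T x + ε) * q) := by
      have : (T + x - 2) * hA T x = x - 1 := by unfold hA; field_simp
      have e1 : (T + x - 2) * ((hA T x + ε) * q) =
          2 * ((T + x - 2) * hA T x) * q + (T + x - 2) * ((ε - hA T x) * q) := by ring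
      rw [e1, this, ← hp]
      linear_combination h1
    exact mul_left_cancel₀ hD1.ne' h3
  have hq' : q' = -((hM T x + hB T x * ε) * q) := by
    have h3 : (T - x + 2) * q' = (T - x + 2) * (-((hM T x + hB T x * ε) * q)) := by
      have e1 : (T - x + 2) * hB T x = 2 * (x - 2) := by unfold hB; field_simp
      have e2 : (T - x + 2) * hC T x = T - x := by unfold hC; field_simp
      have e3 : (T - x + 2) * (-((hM T x + hB T x * ε) * q)) =
          -(((T - x + 2) * hB T x) * (hA T x + ε) * q) + ((T - x + 2) * hC T x) * q := by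
        unfold hM; ring
      rw [e3, e1, e2, h2, hp']
      ring
    exact mul_left_cancel₀ hD2.ne' h3
  have hq2 : 0 < q ^ 2 := by positivity
  have key : p' ^ 2 + q' ^ 2 - (p ^ 2 + q ^ 2) =
      ((hM T x + hB T x * ε - 1) ^ 2 +
        2 * (hM T x - 1 + (hB T x + 2 * hA T x) * ε)) * q ^ 2 := by
    rw [hp', hq', hp]
    ring
  have : 0 < ((hM T x + hB T x * ε - 1) ^ 2 +
        2 * (hM T x - 1 + (hB T x + 2 * hA T x) * ε)) * q ^ 2 := by
    apply mul_pos _ hq2
    have := sq_nonneg (hM T x + hB T x * ε - 1)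
    linarith
  linarith

/-- The discriminant. -/
noncomputable def hN (T x : ℝ) : ℝ := 4 * x ^ 2 - 12 * x + 8 - 2 * T ^ 2 + 2 * T

theorem hM_eq {T x : ℝ} (h1 : 0 < T + x - 2) (h2 : 0 < T - x + 2) :
    hM T x - 1 = hN T x / ((T + x - 2) * (T - x + 2)) := by
  unfold hM hA hB hC hN
  field_simp
  ring

theorem hA_sub {T x : ℝ} (h1 : 0 < T + x - 2) (h2 : 0 < T + x - 4) :
    hA T x - hA T (x - 2) = 2 * (T - 1) / ((T + x - 2) * (T + x - 4)) := by
  have e : T + (x - 2) - 2 = T + x - 4 := by ring
  unfold hA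
  rw [e]
  field_simp
  ring

end Pool.Agent.N661.FCX
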