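import Pool.Agent.N661.FCX.Est
import Pool.Agent.R266.FC.Rec

set_option autoImplicit false

/-!
# The most probable position of the Feynman checkers is not within a bounded distance of `t / √2`
-/

namespace Pool.Agent.N661.FCX

open Pool.Agent.R266.FC

def xi (n k : ℕ) : ℤ := (n : ℤ) + 1 - 2 * k
noncomputable def X (n k : ℕ) : ℝ := ((n : ℝ) + 1) - 2 * k

theorem xi_cast (n k : ℕ) : ((xi n k : ℤ) : ℝ) = X n k := by
  unfold xi X
  push_cast
  ring

theorem xi_succ (n k : ℕ) : xi n k - 2 = xi n (k + 1) := by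
  unfold xi
  push_cast
  ring

theorem X_succ (n k : ℕ) : X n (k + 1) = X n k - 2 := by
  unfold X
  push_cast
  ring

theorem X_add (n k j : ℕ) : X n (k + j) = X n k - 2 * j := by
  unfold X
  push_cast
  ring

theorem X_le (n k : ℕ) : X n k ≤ (n : ℝ) + 1 := by
  unfold X
  have : (0 : ℝ) ≤ k := Nat.cast_nonneg k
  linarith

noncomputable def eps (n k : ℕ) : ℝ :=
  hA ((n : ℝ) + 1) (X n k) + (P n).1 (xi n k) / (P n).2 (xi n k)

theorem sp1 (n k : ℕ) : ((n : ℝ) + 1 + X n k - 2) * ((P n).1 (xi n (k + 1)) - (P n).1 (xi n k)) =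
    (2 * X n k - 2) * (P n).2 (xi n k) := by
  have h := (space n (xi n k)).1
  rw [xi_succ, xi_cast] at h
  linear_combination h

theorem sp2 (n k : ℕ) : ((n : ℝ) + 1 - X n k + 2) * (P n).2 (xi n (k + 1)) =
    ((n : ℝ) + 1 - X n k) * (P n).2 (xi n k) - 2 * (X n k - 2) * (P n).1 (xi n (k + 1)) := by
  have h := (space n (xi n k)).2
  rw [xi_succ, xi_cast] at h
  linear_combination h

theorem step' {n k : ℕ} {e : ℝ} (hx : 3 < X n k) (hq : (P n).2 (xi n k) ≠ 0)
    (he : e ≤ eps n k) (hG : 0 < hM ((n : ℝ) + 1) (X n k) + hB ((n : ℝ) + 1) (X n k) * e) :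
    (P n).2 (xi n (k + 1)) ≠ 0 ∧ hA ((n : ℝ) + 1) (X n k - 2) - (hA ((n : ℝ) + 1) (X n k) + e) /
      (hM ((n : ℝ) + 1) (X n k) + hB ((n : ℝ) + 1) (X n k) * e) ≤ eps n (k + 1) := by
  have h := step (sp1 n k) (sp2 n k) hx (X_le n k) hq he hG
  unfold eps
  rw [X_succ]
  exact h

theorem far_eps {n : ℕ} {r : ℝ} (h : TP ((n : ℝ) + 1) r) (k : ℕ) (hk : r + 8 ≤ X n k) :
    (P n).2 (xi n k) ≠ 0 ∧ 0 ≤ eps n k := by
  have h3 := h.T0
  have h4 := h.lo
  induction k with
  | zero =>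
    have hf := far n (xi n 0) (by unfold xi; simp)
    have e : xi n 0 = (n : ℤ) + 1 := by unfold xi; simp
    rw [if_pos e] at hf
    unfold eps
    rw [hf.1, hf.2]
    refine ⟨one_ne_zero, ?_⟩
    have e2 : X n 0 = (n : ℝ) + 1 := by unfold X; simp
    rw [e2]
    unfold hA
    rw [zero_div, add_zero]
    apply div_nonneg <;> linarith
  | succ k ih =>
    rw [X_succ] at hk
    obtain ⟨hq, he⟩ := ih (by linarith)
    obtain ⟨h5, h6⟩ := S_far h (x := X n k) (by linarith) (X_le n k)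
    have hG : 0 < hM ((n : ℝ) + 1) (X n k) + hB ((n : ℝ) + 1) (X n k) * 0 := by
      rw [mul_zero, add_zero]; linarith
    obtain ⟨h7, h8⟩ := step' (by linarith) hq he hG
    refine ⟨h7, le_trans ?_ h8⟩
    rw [mul_zero, add_zero, add_zero]
    have hm : 0 < hM ((n : ℝ) + 1) (X n k) := by linarith
    rw [sub_nonneg, div_le_iff₀ hm]
    linarith

set_option maxHeartbeats 2000000 in
theorem win (C : ℕ) : ∃ n : ℕ, ∀ k : ℕ, |X n k - ((n : ℝ) + 1) / √2| ≤ C →
    (P n).1 (xi n k) ^ 2 + (P n).2 (xi n k) ^ 2 <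
      (P n).1 (xi n (k + 1)) ^ 2 + (P n).2 (xi n (k + 1)) ^ 2 := by
  obtain ⟨m, hm⟩ : ∃ m : ℕ, m = 6 * C + 40 := ⟨_, rfl⟩
  obtain ⟨n, hn⟩ : ∃ n : ℕ, n = 10000 * m ^ 4 := ⟨_, rfl⟩
  refine ⟨n, ?_⟩
  obtain ⟨c, hc⟩ : ∃ c : ℝ, c = (C : ℝ) := ⟨_, rfl⟩
  obtain ⟨M, hM'⟩ : ∃ M : ℝ, M = (m : ℝ) := ⟨_, rfl⟩
  rw [← hc]
  have hc0 : 0 ≤ c := by rw [hc]; exact Nat.cast_nonneg C
  have hMc : M = 6 * c + 40 := by rw [hM', hm, hc]; push_cast; ring
  have hM40 : 40 ≤ M := by linarith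
  have hnT : (n : ℝ) = 10000 * M ^ 4 := by rw [hn, hM']; push_cast; ring
  clear hn hm hc
  set T : ℝ := (n : ℝ) + 1 with hT
  set r : ℝ := T / √2 with hr
  have hM2 : 1600 ≤ M ^ 2 := by nlinarith
  have hM4 : M ^ 4 = M ^ 2 * M ^ 2 := by ring
  have hM4b : 1600 * M ^ 2 ≤ M ^ 4 := by nlinarith
  have hTbig : 1000000 ≤ T := by nlinarith
  have hT0 : 0 < T := by linarith
  have hMT : M ≤ M ^ 2 := by nlinarith
  have hTP : TP T r := by
    refine ⟨?_, by positivity, hTbig⟩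
    rw [hr, div_pow, Real.sq_sqrt (by norm_num)]
    ring
  have hlo := hTP.lo
  have hhi := hTP.hi
  have hwin : 4 * M + 2 ≤ T / 1000 := by nlinarith
  have hcwin : c + 4 ≤ T / 1000 := by nlinarith
  have hB1 : 100 * (2 * M ^ 2) ≤ T := by nlinarith
  have hB2 : 11 * (2 * M ^ 2) + 5 * (2 * M ^ 2) ^ 2 ≤ T := by nlinarith
  -- the starting point
  obtain ⟨k₁, hk1, hk2⟩ : ∃ k₁ : ℕ, r + 4 * M ≤ X n k₁ ∧ X n k₁ < r + 4 * M + 2 := by
    refine ⟨⌊(T - r - 4 * M) / 2⌋₊, ?_, ?_⟩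
    · have h0 : 0 ≤ (T - r - 4 * M) / 2 := by linarith
      have := Nat.floor_le h0
      unfold X
      rw [← hT]
      linarith
    · have := Nat.lt_floor_add_one ((T - r - 4 * M) / 2)
      unfold X
      rw [← hT]
      linarith
  have start := far_eps hTP k₁ (by linarith)
  -- first phase
  have phA : ∀ i : ℕ, i ≤ m → (P n).2 (xi n (k₁ + i)) ≠ 0 ∧ (2 * M * i) / T ≤ eps n (k₁ + i) := by
    intro i
    induction i with
    | zero =>
      intro _
      refine ⟨start.1, ?_⟩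
      simpa using start.2
    | succ i ih =>
      intro hi
      obtain ⟨hq, he⟩ := ih (by omega)
      have hiM : (i : ℝ) + 1 ≤ M := by rw [hM']; exact_mod_cast hi
      have hi0 : (0 : ℝ) ≤ i := Nat.cast_nonneg i
      have hX := X_add n k₁ i
      have hnear : Near T r (X n (k₁ + i)) :=
        ⟨hTP, by linarith, by linarith⟩
      have hS := hnear.S_pos (y := 2 * M) (by linarith) (by linarith)
      have h0 : 0 ≤ 2 * M * i := by positivity
      have hFB : 2 * M * i ≤ 2 * M ^ 2 := by nlinarith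
      obtain ⟨hG, hI⟩ := hnear.inc (F := 2 * M * i) (i := 2 * M) h0 hFB hB1 hB2 hS
        (by linarith) (by linarith)
      obtain ⟨h7, h8⟩ := step' (by linarith) hq he hG
      refine ⟨h7, le_trans ?_ h8⟩
      have e : 2 * M * ((i + 1 : ℕ) : ℝ) = 2 * M * i + 2 * M := by push_cast; ring
      rw [e]
      exact hI
  obtain ⟨hqA, heA⟩ := phA m le_rfl
  have hXA := X_add n k₁ m
  rw [← hM'] at heA hXA
  -- second phase
  have phB : ∀ j : ℕ, r - c - 2 ≤ X n (k₁ + m + j) → (P n).2 (xi n (k₁ + m + j)) ≠ 0 ∧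
      (2 * M ^ 2 - (6 * c + 34) * j) / T ≤ eps n (k₁ + m + j) := by
    intro j
    induction j with
    | zero =>
      intro _
      refine ⟨hqA, ?_⟩
      have e : 2 * M ^ 2 - (6 * c + 34) * ((0 : ℕ) : ℝ) = 2 * M * M := by push_cast; ring
      rw [e]
      exact heA
    | succ j ih =>
      intro hj
      have e0 : k₁ + m + (j + 1) = (k₁ + m + j) + 1 := by ring
      rw [e0] at hj ⊢
      rw [X_succ] at hj
      obtain ⟨hq, he⟩ := ih (by linarith)
      have hj0 : (0 : ℝ) ≤ j := Nat.cast_nonneg j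
      have hX := X_add n (k₁ + m) j
      have hnear : Near T r (X n (k₁ + m + j)) :=
        ⟨hTP, by linarith, by linarith⟩
      have hS := hnear.S_neg (y := c) hc0 (by linarith)
      have hjle : (j : ℝ) ≤ M + 1 + c / 2 := by linarith
      have hL : (6 * c + 34) * (j : ℝ) ≤ (6 * c + 34) * (M + 1 + c / 2) :=
        mul_le_mul_of_nonneg_left hjle (by linarith)
      have h0 : 0 ≤ 2 * M ^ 2 - (6 * c + 34) * j := by
        rw [hMc] at hL ⊢
        nlinarith [sq_nonneg c]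
      have hFB : 2 * M ^ 2 - (6 * c + 34) * j ≤ 2 * M ^ 2 := by
        have : 0 ≤ (6 * c + 34) * (j : ℝ) := by positivity
        linarith
      obtain ⟨hG, hI⟩ := hnear.inc (F := 2 * M ^ 2 - (6 * c + 34) * j) (σ := -(5 * c + 7))
        (i := -(6 * c + 34)) h0 hFB hB1 hB2 hS (by linarith) (by linarith)
      obtain ⟨h7, h8⟩ := step' (by linarith) hq he hG
      refine ⟨h7, le_trans ?_ h8⟩
      have e : 2 * M ^ 2 - (6 * c + 34) * ((j + 1 : ℕ) : ℝ) =
          2 * M ^ 2 - (6 * c + 34) * j + -(6 * c + 34) := by push_cast; ring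
      rw [e]
      exact hI
  intro k hk
  obtain ⟨hk3, hk4⟩ := abs_le.1 hk
  -- k is in the second phase
  obtain ⟨j, rfl⟩ : ∃ j, k = k₁ + m + j := by
    have hlt : k₁ + m < k := by
      by_contra hle
      push Not at hle
      have h1 : X n (k₁ + m) ≤ X n k := by
        unfold X
        have : (k : ℝ) ≤ ((k₁ + m : ℕ) : ℝ) := by exact_mod_cast hle
        linarith
      linarith
    exact ⟨k - (k₁ + m), by omega⟩
  obtain ⟨hq, he⟩ := phB j (by linarith)
  have hj0 : (0 : ℝ) ≤ j := Nat.cast_nonneg j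
  have hX := X_add n (k₁ + m) j
  have hnear : Near T r (X n (k₁ + m + j)) := ⟨hTP, by linarith, by linarith⟩
  have hjle : (j : ℝ) ≤ M + 1 + c / 2 := by linarith
  have hL : (6 * c + 34) * (j : ℝ) ≤ (6 * c + 34) * (M + 1 + c / 2) :=
    mul_le_mul_of_nonneg_left hjle (by linarith)
  have hF : 6 * c + 13 ≤ 2 * M ^ 2 - (6 * c + 34) * j := by
    rw [hMc] at hL ⊢
    nlinarith [sq_nonneg c]
  refine grow (sp1 n _) (sp2 n _) (by linarith) (X_le n _) hq ?_
  have hMn := hnear.M_neg (y := c) hc0 (by linarith)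
  obtain ⟨a1, a2, a3, a4⟩ := hnear.A_bd
  obtain ⟨b1, b2, b3⟩ := hnear.B_bd
  have he2 : (6 * c + 13) / T ≤ eps n (k₁ + m + j) :=
    le_trans (div_le_div_of_nonneg_right hF hT0.le) he
  have he0 : 0 ≤ (6 * c + 13) / T := by positivity
  have h9 : 4 * ((6 * c + 13) / T) ≤
      (hB T (X n (k₁ + m + j)) + 2 * hA T (X n (k₁ + m + j))) * eps n (k₁ + m + j) :=
    mul_le_mul (by linarith) he2 he0 (by linarith)
  have h10 : (115 / 10 * c + 14) / T < 4 * ((6 * c + 13) / T) := by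
    have : 4 * ((6 * c + 13) / T) - (115 / 10 * c + 14) / T =
        (4 * (6 * c + 13) - (115 / 10 * c + 14)) / T := by ring
    have h11 : 0 < (4 * (6 * c + 13) - (115 / 10 * c + 14)) / T :=
      div_pos (by linarith) hT0
    linarith
  unfold eps at h9
  rw [← hT] at h9
  linarith

theorem supp (n : ℕ) : ∀ x : ℤ, ((P n).1 x ≠ 0 ∨ (P n).2 x ≠ 0) → ∃ k : ℕ, k ≤ n ∧ x = xi n k := by
  induction n with
  | zero =>
    intro x hx
    refine ⟨0, le_rfl, ?_⟩
    rw [P_zero1, P_zero2] at hx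
    rcases hx with h | h
    · exact absurd rfl h
    · unfold xi
      by_contra hne
      apply h
      rw [if_neg]
      intro h1
      apply hne
      simp [h1]
  | succ n ih =>
    intro x hx
    rw [P_succ1, P_succ2] at hx
    rcases hx with h | h
    · have h1 : (P n).1 (x + 1) ≠ 0 ∨ (P n).2 (x + 1) ≠ 0 := by
        by_contra hh
        push Not at hh
        apply h
        rw [hh.1, hh.2, add_zero]
      obtain ⟨k, hk, hx⟩ := ih _ h1
      refine ⟨k + 1, by omega, ?_⟩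
      unfold xi at hx ⊢
      push_cast
      linarith
    · have h1 : (P n).1 (x - 1) ≠ 0 ∨ (P n).2 (x - 1) ≠ 0 := by
        by_contra hh
        push Not at hh
        apply h
        rw [hh.1, hh.2, sub_zero]
      obtain ⟨k, hk, hx⟩ := ih _ h1
      refine ⟨k, by omega, ?_⟩
      unfold xi at hx ⊢
      push_cast
      linarith

/-- probability up to normalisation -/
noncomputable def pr (n : ℕ) (x : ℤ) : ℝ := (P n).1 x ^ 2 + (P n).2 x ^ 2

theorem pr_nonneg (n : ℕ) (x : ℤ) : 0 ≤ pr n x := by unfold pr; positivity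

theorem pr_zero {n : ℕ} {x : ℤ} (h : ¬ ∃ k : ℕ, k ≤ n ∧ x = xi n k) : pr n x = 0 := by
  unfold pr
  have h1 : ¬ ((P n).1 x ≠ 0 ∨ (P n).2 x ≠ 0) := fun hx => h (supp n x hx)
  push Not at h1
  rw [h1.1, h1.2]
  ring

theorem exists_max (n : ℕ) : ∃ k : ℕ, ∀ y : ℤ, pr n y ≤ pr n (xi n k) := by
  obtain ⟨k, hk, hmax⟩ := Finset.exists_max_image (Finset.range (n + 1)) (fun k => pr n (xi n k))
    ⟨0, by simp⟩
  refine ⟨k, fun y => ?_⟩
  by_cases hy : ∃ k : ℕ, k ≤ n ∧ y = xi n k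
  · obtain ⟨j, hj, rfl⟩ := hy
    exact hmax j (Finset.mem_range.2 (by omega))
  · rw [pr_zero hy]
    exact pr_nonneg _ _

theorem path_eq (n : ℕ) (y : ℤ) :
    ‖∑ s ∈ Finset.univ.filter
        (fun s : Fin (n+1) → Bool =>
          s 0 = true ∧ ∑ i, (if s i then (1:ℤ) else -1) = y),
      (-Complex.I) ^ ((Finset.univ.filter
        (fun i : Fin n => s i.castSucc ≠ s i.succ)).card)‖ ^ 2 = pr n y := by
  have ht : ∀ s : Fin (n + 1) → Bool,
      (Finset.univ.filter (fun i : Fin n => s i.castSucc ≠ s i.succ)).card = turns s := by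
    intro s
    unfold turns
    rw [Finset.card_filter]
    refine Finset.sum_congr rfl fun i _ => ?_
    by_cases h : s i.castSucc = s i.succ <;> simp [h]
  simp only [ht]
  have h1 : Complex.I * ∑ s ∈ Finset.univ.filter
        (fun s : Fin (n+1) → Bool =>
          s 0 = true ∧ ∑ i, (if s i then (1:ℤ) else -1) = y), (-Complex.I) ^ turns s =
      ((P n).1 y : ℂ) + Complex.I * ((P n).2 y : ℂ) := by
    obtain ⟨h1, h2⟩ := Z_eq n y
    rw [← h1, ← h2]
    unfold Z
    rw [← Finset.sum_add_distrib, Finset.mul_sum, Finset.sum_filter]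
    refine Finset.sum_congr rfl fun s _ => ?_
    change (if s 0 = true ∧ endpt s = y then _ else _) = _
    by_cases h3 : s 0 = true ∧ endpt s = y
    · rcases h4 : s (Fin.last n) with _ | _ <;> simp [h3]
    · rw [if_neg h3, if_neg (fun h => h3 ⟨h.1, h.2.1⟩), if_neg (fun h => h3 ⟨h.1, h.2.1⟩),
        add_zero]
  have h2 := congrArg (fun z : ℂ => ‖z‖ ^ 2) h1
  simp only [norm_mul, Complex.norm_I, one_mul] at h2
  rw [h2, ← Complex.normSq_eq_norm_sq, Complex.normSq_apply]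
  unfold pr
  simp
  ring

end Pool.Agent.N661.FCX
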